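import Pool.Agent.Lib_helper51.TM32.Defs2
import Pool.Agent.Lib_helper82.Quartic.Quad

/-!
TM32, block I1 (helper37): Lemma Z, the quadratic symbol of `ℤ[i]` by Jacobi symbols
-/

set_option autoImplicit false

namespace Pool.Agent.TM32

open Zsqrtd

/-! ### lists of primes -/

theorem I1_list {n : ℕ} (hn : n % 4 = 1) (L : List ℕ) (hL : ∀ l ∈ L, l.Prime) :
    jacobiSym ((L.prod : ℕ) : ℤ) n = jacobiSym 2 n ^ (L.count 2) *
      ((L.filter (fun l => l ≠ 2)).map (fun l => jacobiSym (n : ℤ) l)).prod := by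
  induction L with
  | nil => simp
  | cons l L ih =>
    have h1 := ih fun x hx => hL x (List.mem_cons_of_mem _ hx)
    have hl : l.Prime := hL l List.mem_cons_self
    rw [List.prod_cons, Nat.cast_mul, jacobiSym.mul_left, h1]
    by_cases h2 : l = 2
    · subst h2
      rw [List.filter_cons_of_neg (by simp), List.count_cons_self, pow_succ]
      push_cast
      ring
    · rw [List.filter_cons_of_pos (by simpa using h2), List.map_cons, List.prod_cons,
        List.count_cons_of_ne (Ne.symm (fun h => h2 h.symm))]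
      rw [jacobiSym.quadratic_reciprocity_one_mod_four' (hl.odd_of_ne_two h2) hn]
      ring

theorem I1_neg {n : ℕ} (hn : n % 4 = 1) : jacobiSym (-1) n = 1 := by
  rw [jacobiSym.at_neg_one (Nat.odd_iff.2 (by omega)), ZMod.χ₄_nat_one_mod_four hn]

theorem I1_abs {n : ℕ} (hn : n % 4 = 1) (k : ℤ) :
    jacobiSym k n = jacobiSym (k.natAbs : ℤ) n := by
  rcases Int.natAbs_eq k with h | h
  · rw [← h]
  · conv_lhs => rw [h]
    rw [← neg_one_mul, jacobiSym.mul_left, I1_neg hn, one_mul]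

theorem I1_Q {n : ℕ} (hn : n % 4 = 1) {k : ℤ} (hk : k ≠ 0) :
    jacobiSym k n = jacobiSym 2 n ^ (padicValInt 2 k) *
      Lp k (fun l => jacobiSym (n : ℤ) l) := by
  have h0 : k.natAbs ≠ 0 := Int.natAbs_ne_zero.2 hk
  have h2 := I1_list hn k.natAbs.primeFactorsList fun l hl => Nat.prime_of_mem_primeFactorsList hl
  rw [Nat.prod_primeFactorsList h0, Nat.primeFactorsList_count_eq,
    Nat.factorization_def _ Nat.prime_two] at h2
  rw [I1_abs hn]
  exact h2

theorem I1_mul {k k' : ℤ} (hk : k ≠ 0) (hk' : k' ≠ 0) (f : ℕ → ℤ) :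
    Lp (k * k') f = Lp k f * Lp k' f := by
  unfold Lp
  rw [Int.natAbs_mul, (((Nat.perm_primeFactorsList_mul (Int.natAbs_ne_zero.2 hk)
    (Int.natAbs_ne_zero.2 hk')).filter _).map f).prod_eq, List.filter_append, List.map_append,
    List.prod_append]

theorem I1_congr {k : ℤ} {f g : ℕ → ℤ}
    (h : ∀ l : ℕ, l.Prime → l ≠ 2 → (l : ℤ) ∣ k → f l = g l) : Lp k f = Lp k g := by
  unfold Lp
  congr 1
  refine List.map_congr_left fun l hl => ?_
  rw [List.mem_filter] at hl
  refine h l (Nat.prime_of_mem_primeFactorsList hl.1) (by simpa using hl.2) ?_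
  exact Int.natCast_dvd.2 (Nat.dvd_of_mem_primeFactorsList hl.1)

theorem I1_const (k : ℤ) : Lp k (fun _ => 1) = 1 := by
  unfold Lp
  rw [List.map_const', List.prod_replicate, one_pow]

theorem I1_Lrat (a : ℤ) {q : ℕ} (hq : q % 2 = 1) :
    jacobiSym a q = Lp (q : ℤ) (fun l => jacobiSym a l) := by
  have h0 : q ≠ 0 := by omega
  unfold Lp
  rw [Int.natAbs_natCast]
  have h1 : q.primeFactorsList.filter (fun l => l ≠ 2) = q.primeFactorsList := by
    refine List.filter_eq_self.2 fun l hl => ?_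
    have h2 := Nat.dvd_of_mem_primeFactorsList hl
    have h3 : l ≠ 2 := fun h => by
      rw [h] at h2
      omega
    simpa using h3
  rw [h1, ← jacobiSym.list_prod_right, Nat.prod_primeFactorsList h0]
  intro l hl
  exact (Nat.prime_of_mem_primeFactorsList hl).ne_zero

/-! ### the symbol of `ℤ[i]` -/

section gauss

open Pool.Agent.Quartic82

/-- rational numerators -/
theorem I1_int {u : ℤ} : ∀ β : GaussianInt, Od β → IsCoprime u β.norm →
    Q2 (u : GaussianInt) β = ((jacobiSym u β.norm.natAbs : ℤ) : GaussianInt) := by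
  apply od_induction (P := fun β => IsCoprime u β.norm →
    Q2 (u : GaussianInt) β = ((jacobiSym u β.norm.natAbs : ℤ) : GaussianInt))
  · intro β hβ _
    have h1 : β.norm = 1 := (unit_iff β).1 hβ
    rw [h1, Int.natAbs_one, jacobiSym.one_right]
    unfold Q2
    rw [Q4_unit_right _ hβ]
    simp
  · intro ρ hρ ho hco
    obtain ⟨q, hq, hρq, hcase⟩ := prime_class hρ ho
    have hF : Fact q.Prime := ⟨hq⟩
    rcases hcase with ⟨hn, h4⟩ | ⟨has, h4⟩
    · have hqu : ¬ (q : ℤ) ∣ u := by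
        intro h
        rw [hn] at hco
        have h1 := hco.symm.isUnit_of_dvd h
        rw [Int.isUnit_iff] at h1
        have := hq.two_le
        omega
      have hρu : ¬ ρ ∣ (u : GaussianInt) := fun h =>
        hqu ((rat_dvd_of_dvd hq hρ.not_isUnit hρq u).1 h)
      obtain ⟨h1, h2⟩ := psym_spec hρ ho hρu
      have h3 := dvd_pow_sub_pow h2 2
      rw [hn, Int.natAbs_natCast, ← pow_mul] at h3
      have h5 : (q - 1) / 4 * 2 = q / 2 := by omega
      rw [h5] at h3
      have h6 : (q : ℤ) ∣ u ^ (q / 2) - legendreSym q u := by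
        rw [← ZMod.intCast_zmod_eq_zero_iff_dvd]
        push_cast
        rw [legendreSym.eq_pow, sub_self]
      have h7 : ρ ∣ ((u ^ (q / 2) - legendreSym q u : ℤ) : GaussianInt) := by
        refine hρq.trans ?_
        have := Int.cast_dvd_cast (α := GaussianInt) _ _ h6
        simpa using this
      have h8 : ρ ∣ Q2 (u : GaussianInt) ρ - ((legendreSym q u : ℤ) : GaussianInt) := by
        unfold Q2
        rw [Q4_prime _ hρ]
        have h9 := dvd_sub h7 h3
        push_cast at h9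
        have h10 : (u : GaussianInt) ^ (q / 2) - ((legendreSym q u : ℤ) : GaussianInt) -
            ((u : GaussianInt) ^ (q / 2) - psym ρ (u : GaussianInt) ^ 2) =
            psym ρ (u : GaussianInt) ^ 2 - ((legendreSym q u : ℤ) : GaussianInt) := by ring
        rw [h10] at h9
        exact h9
      have h9 : IsUnit (Q2 (u : GaussianInt) ρ) := by
        unfold Q2
        rw [Q4_prime _ hρ]
        exact h1.pow 2
      have hu0 : (u : ZMod q) ≠ 0 := fun h => hqu ((ZMod.intCast_zmod_eq_zero_iff_dvd _ _).1 h)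
      have h10 : IsUnit (((legendreSym q u : ℤ) : GaussianInt)) := by
        rcases legendreSym.eq_one_or_neg_one q hu0 with h | h <;> rw [h] <;> simp
      rw [unit_eq_of_dvd ho hρ.not_isUnit h9 h10 h8, hn, Int.natAbs_natCast,
        jacobiSym.legendreSym.to_jacobiSym]
    · have hn : ρ.norm = (q : ℤ) * q := by
        obtain ⟨w, hw⟩ := has
        have h1 := congrArg Zsqrtd.norm hw
        rw [Zsqrtd.norm_mul, (unit_iff _).1 w.isUnit, mul_one, Zsqrtd.norm_natCast] at h1
        exact h1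
      rw [hn] at hco
      have hco' : IsCoprime u (q : ℤ) := hco.of_mul_right_left
      have h1 : Q2 (u : GaussianInt) ρ = 1 := by
        rw [Q2_assoc _ has]
        have := Q2_int_int (m := u) (n := (q : ℤ)) (by omega) hco'
        simpa using this
      rw [h1, hn, Int.natAbs_mul, Int.natAbs_natCast, jacobiSym.mul_right' _ hq.ne_zero hq.ne_zero,
        ← pow_two, jacobiSym.sq_one (Int.isCoprime_iff_gcd_eq_one.1 hco')]
      simp
  · intro a b ha hb h1 h2 hco
    rw [Zsqrtd.norm_mul] at hco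
    have ha0 : a.norm.natAbs ≠ 0 := by
      have := ha
      unfold Od at this
      omega
    have hb0 : b.norm.natAbs ≠ 0 := by
      have := hb
      unfold Od at this
      omega
    rw [Q2_mul_right _ ha.ne_zero hb.ne_zero, h1 hco.of_mul_right_left, h2 hco.of_mul_right_right,
      Zsqrtd.norm_mul, Int.natAbs_mul, jacobiSym.mul_right' _ ha0 hb0]
    push_cast
    ring

theorem I1_norm_coprime {x : GaussianInt} {q : ℤ} (h : IsCoprime x (q : GaussianInt)) :
    IsCoprime x.norm q := by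
  obtain ⟨u, v, huv⟩ := h
  have h1 : (u * x).norm = (1 - v * (q : GaussianInt)).norm := by
    congr 1
    rw [← huv]
    ring
  rw [Zsqrtd.norm_mul, norm_val (1 - _)] at h1
  simp only [Zsqrtd.re_sub, Zsqrtd.im_sub, Zsqrtd.re_one, Zsqrtd.im_one, Zsqrtd.re_mul,
    Zsqrtd.im_mul, Zsqrtd.re_intCast, Zsqrtd.im_intCast, mul_zero, zero_add,
    add_zero] at h1
  refine ⟨u.norm, 2 * v.re - q * v.re ^ 2 - q * v.im ^ 2, ?_⟩
  linear_combination h1

/-- rational denominators -/
theorem I1_rat {x : GaussianInt} {q : ℤ} (hq : q % 2 = 1) (h : IsCoprime x (q : GaussianInt)) :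
    Q2 x (q : GaussianInt) = ((jacobiSym x.norm q.natAbs : ℤ) : GaussianInt) := by
  obtain ⟨r, hr⟩ : ∃ r, r = (x.re + 1) % 2 := ⟨_, rfl⟩
  obtain ⟨s, hs⟩ : ∃ s, s = x.im % 2 := ⟨_, rfl⟩
  obtain ⟨x', hx'⟩ : ∃ x' : GaussianInt, x' = x + (q : GaussianInt) * ⟨r, s⟩ := ⟨_, rfl⟩
  have hre : x'.re = x.re + q * r := by rw [hx']; simp
  have him : x'.im = x.im + q * s := by rw [hx']; simp
  obtain ⟨c, hc⟩ : ∃ c, q = 2 * c + 1 := ⟨q / 2, by omega⟩
  have hre2 : x'.re % 2 = 1 := by
    rw [hre, hc, show x.re + (2 * c + 1) * r = x.re + r + 2 * (c * r) by ring]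
    omega
  have him2 : x'.im % 2 = 0 := by
    rw [him, hc, show x.im + (2 * c + 1) * s = x.im + s + 2 * (c * s) by ring]
    omega
  have hN4 : x'.norm % 4 = 1 := by
    rw [norm_val]
    obtain ⟨d, hd⟩ : ∃ d, x'.re = 2 * d + 1 := ⟨x'.re / 2, by omega⟩
    obtain ⟨e, he⟩ : ∃ e, x'.im = 2 * e := ⟨x'.im / 2, by omega⟩
    rw [hd, he, show (2 * d + 1) ^ 2 + (2 * e) ^ 2 = 4 * (d ^ 2 + d + e ^ 2) + 1 by ring]
    omega
  have ho : Od x' := by unfold Od; omega
  have hNN : x'.norm = x.norm + q * (2 * x.re * r + 2 * x.im * s + q * (r ^ 2 + s ^ 2)) := by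
    rw [norm_val, norm_val, hre, him]
    ring
  have hcop : IsCoprime q x'.norm := by
    have h1 := (I1_norm_coprime h).symm
    rw [hNN]
    exact h1.add_mul_left_right _
  have e1 : Q2 x (q : GaussianInt) = Q2 x' (q : GaussianInt) := by
    refine Q2_congr (od_intCast.2 hq) ?_
    rw [hx']
    refine ⟨-⟨r, s⟩, ?_⟩
    ring
  have hn0 := norm_nn x'
  have hNat : x'.norm.natAbs % 4 = 1 := by omega
  have hqo : Odd q.natAbs := Nat.odd_iff.2 (by omega)
  have e2 : jacobiSym q x'.norm.natAbs = jacobiSym x.norm q.natAbs := by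
    rw [I1_abs hNat, jacobiSym.quadratic_reciprocity_one_mod_four' hqo hNat,
      Int.natAbs_of_nonneg hn0]
    refine jacobiSym.mod_left' ?_
    have h2 : ((q.natAbs : ℕ) : ℤ) ∣ x'.norm - x.norm := by
      rw [hNN, add_sub_cancel_left]
      exact Int.natAbs_dvd.2 (dvd_mul_right _ _)
    exact (Int.emod_emod_of_dvd _ (dvd_refl _)).symm.trans (by
      rw [Int.emod_emod_of_dvd _ (dvd_refl _)]
      exact Int.emod_emod_of_dvd _ (dvd_refl _) |>.symm.trans (by
        rw [Int.emod_emod_of_dvd _ (dvd_refl _)]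
        exact (Int.emod_emod_of_dvd _ (dvd_refl _)).symm.trans (by
          rw [Int.emod_emod_of_dvd _ (dvd_refl _)]
          exact Int.ModEq.symm ((Int.modEq_iff_dvd).2 h2))))
  rw [e1, ← RG2 ho him2 q hq, I1_int x' ho hcop, e2]

/-- the symbol `(b / a² + b²)` -/
theorem I1_b {a b : ℤ} {n : ℕ} (hn : (n : ℤ) = a ^ 2 + b ^ 2) (hn4 : n % 4 = 1)
    (hab : Int.gcd a b = 1) (hb0 : b ≠ 0) :
    jacobiSym b n = if b % 4 = 2 then -1 else 1 := by
  have hno : Odd n := Nat.odd_iff.2 (by omega)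
  rw [I1_Q hn4 hb0]
  have h1 : Lp b (fun l => jacobiSym (n : ℤ) l) = Lp b (fun _ => 1) := by
    refine I1_congr fun l _ _ hlb => ?_
    have h2 : ((n : ℤ)) % l = (a ^ 2) % l := by
      obtain ⟨c, hc⟩ := hlb
      rw [hn, show a ^ 2 + b ^ 2 = a ^ 2 + l * (c * b) by nth_rewrite 2 [pow_two]; nth_rewrite 1 [hc]; ring,
        Int.add_mul_emod_self_left]
    rw [jacobiSym.mod_left' h2]
    refine jacobiSym.sq_one' ?_
    have h3 : IsCoprime a (l : ℤ) :=
      (Int.isCoprime_iff_gcd_eq_one.2 hab).of_isCoprime_of_dvd_right hlb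
    exact Int.isCoprime_iff_gcd_eq_one.1 h3
  rw [h1, I1_const, mul_one]
  by_cases hb : b % 2 = 1
  · have h2 : padicValInt 2 b = 0 := padicValInt.eq_zero_of_not_dvd (by
      intro h3
      have h4 : (2 : ℤ) ∣ b := by exact_mod_cast h3
      omega)
    rw [h2, pow_zero, if_neg (by omega)]
  · have ha : a % 2 = 1 := by
      by_contra h2
      have h3 : (2 : ℤ) ∣ ((Int.gcd a b : ℕ) : ℤ) := Int.dvd_coe_gcd (by omega) (by omega)
      rw [hab] at h3
      norm_num at h3
    obtain ⟨d, hd⟩ : ∃ d, a = 2 * d + 1 := ⟨a / 2, by omega⟩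
    have hdd : (d * (d + 1)) % 2 = 0 := Int.even_iff.1 (Int.even_mul_succ_self d)
    have ha8 : a ^ 2 = 4 * (d * (d + 1)) + 1 := by rw [hd]; ring
    obtain ⟨e, he⟩ : ∃ e, b = 2 * e := ⟨b / 2, by omega⟩
    have hb4 : b ^ 2 = 4 * (e ^ 2) := by rw [he]; ring
    by_cases h4 : b % 4 = 2
    · rw [if_pos h4]
      have heo : e % 2 = 1 := by omega
      have he2 : e ^ 2 % 2 = 1 := Int.odd_iff.1 ((Int.odd_iff.2 heo).pow)
      have hn8 : n % 8 = 5 := by omega
      have h5 : padicValInt 2 b = 1 := by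
        have e0 : b.natAbs = 2 * e.natAbs := by rw [he, Int.natAbs_mul]; rfl
        unfold padicValInt
        have e1 : e.natAbs ≠ 0 := by omega
        rw [e0, padicValNat.mul (by norm_num) e1, padicValNat.self (by norm_num),
          padicValNat.eq_zero_of_not_dvd (by omega)]
      rw [h5, pow_one, jacobiSym.at_two hno, ZMod.χ₈_nat_eq_if_mod_eight]
      simp [hn8, show n % 2 = 1 by omega]
    · rw [if_neg h4]
      obtain ⟨e', he'⟩ : ∃ e', e = 2 * e' := ⟨e / 2, by omega⟩
      have he2 : e ^ 2 = 4 * e' ^ 2 := by rw [he']; ring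
      have hn8 : n % 8 = 1 := by omega
      have h6 : jacobiSym 2 n = 1 := by
        rw [jacobiSym.at_two hno, ZMod.χ₈_nat_eq_if_mod_eight]
        simp [hn8, show n % 2 = 1 by omega]
      rw [h6, one_pow]

/-- the case of a primitive denominator -/
theorem I1_prim {x : GaussianInt} {a b : ℤ} {n : ℕ} (hn : (n : ℤ) = a ^ 2 + b ^ 2)
    (hn4 : n % 4 = 1) (hab : Int.gcd a b = 1) (hk : a * x.im - b * x.re ≠ 0)
    (hco : IsCoprime (a * x.im - b * x.re) (n : ℤ)) :
    Q2 x (⟨a, b⟩ : GaussianInt) = (((if b % 4 = 2 then -1 else 1) *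
      (jacobiSym 2 n ^ (padicValInt 2 (a * x.im - b * x.re)) *
      Lp (a * x.im - b * x.re) (fun l => jacobiSym (n : ℤ) l)) : ℤ) : GaussianInt) := by
  obtain ⟨β, hβ⟩ : ∃ β : GaussianInt, β = ⟨a, b⟩ := ⟨_, rfl⟩
  have hbre : β.re = a := by rw [hβ]
  have hbim : β.im = b := by rw [hβ]
  have hnβ : β.norm = n := by rw [norm_val, hbre, hbim, hn]
  have ho : Od β := by
    unfold Od
    rw [hnβ]
    omega
  rw [← hβ]
  by_cases hb0 : b = 0
  · have h1 : a ^ 2 = 1 := by
      rw [hb0, Int.gcd_zero_right] at hab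
      rw [← Int.natAbs_sq, hab]
      rfl
    have h2 : n = 1 := by
      have h3 : (n : ℤ) = 1 := by rw [hn, hb0, h1]; norm_num
      exact_mod_cast h3
    have hu : IsUnit β := (unit_iff β).2 (by rw [hnβ, h2]; rfl)
    have h3 : Q2 x β = 1 := by
      unfold Q2
      rw [Q4_unit_right _ hu, one_pow]
    have h4 : Lp (a * x.im - b * x.re) (fun l => jacobiSym ((1 : ℕ) : ℤ) l) =
        Lp (a * x.im - b * x.re) (fun _ => 1) :=
      I1_congr fun l _ _ _ => by rw [Nat.cast_one, jacobiSym.one_left]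
    rw [h3, h2, h4, I1_const, jacobiSym.one_right, one_pow, hb0]
    simp
  · obtain ⟨H, hH⟩ : ∃ H, H = a * x.im - b * x.re := ⟨_, rfl⟩
    rw [← hH] at hk hco ⊢
    have hbn : IsCoprime b (n : ℤ) := by
      have h1 : IsCoprime b (a ^ 2) := ((Int.isCoprime_iff_gcd_eq_one.2 hab).symm).pow_right
      rw [hn, pow_two b]
      exact h1.add_mul_left_right b
    have h2n : IsCoprime (2 : ℤ) (n : ℤ) := by
      refine (Int.prime_two.coprime_iff_not_dvd).2 ?_
      omega
    have hcb : IsCoprime (-(2 * b) : ℤ) (n : ℤ) := (h2n.mul_left hbn).neg_left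
    have hcH : IsCoprime (2 * H : ℤ) (n : ℤ) := h2n.mul_left hco
    -- the congruence
    have e1 : Q2 (((-(2 * b) : ℤ) : GaussianInt) * gI * x) β =
        Q2 (((2 * H : ℤ) : GaussianInt) * gI) β := by
      refine Q2_congr ho ⟨star x - x, ?_⟩
      rw [hβ, hH]
      ext
      · simp
        ring
      · simp
        ring
    have hsq : Q2 (((-(2 * b) : ℤ) : GaussianInt)) β * Q2 (((-(2 * b) : ℤ) : GaussianInt)) β =
        1 := by
      rw [I1_int β ho (by rw [hnβ]; exact hcb), hnβ, Int.natAbs_natCast, ← Int.cast_mul,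
        ← pow_two, jacobiSym.sq_one (Int.isCoprime_iff_gcd_eq_one.1 hcb)]
      simp
    have hgsq : Q2 gI β * Q2 gI β = 1 := by
      rw [← Q2_mul_left _ _ ho, gI_mul_gI, Q2_neg_one ho]
    rw [Q2_mul_left _ _ ho, Q2_mul_left _ _ ho, Q2_mul_left _ _ ho] at e1
    have e2 : Q2 x β = Q2 (((-(2 * b) : ℤ) : GaussianInt)) β * Q2 (((2 * H : ℤ) : GaussianInt)) β := by
      calc Q2 x β = (Q2 (((-(2 * b) : ℤ) : GaussianInt)) β * Q2 (((-(2 * b) : ℤ) : GaussianInt)) β) *
            (Q2 gI β * Q2 gI β) * Q2 x β := by rw [hsq, hgsq, one_mul, one_mul]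
        _ = Q2 (((-(2 * b) : ℤ) : GaussianInt)) β * Q2 gI β *
            (Q2 (((-(2 * b) : ℤ) : GaussianInt)) β * Q2 gI β * Q2 x β) := by ring
        _ = Q2 (((-(2 * b) : ℤ) : GaussianInt)) β * Q2 gI β *
            (Q2 (((2 * H : ℤ) : GaussianInt)) β * Q2 gI β) := by rw [e1]
        _ = (Q2 gI β * Q2 gI β) * (Q2 (((-(2 * b) : ℤ) : GaussianInt)) β *
            Q2 (((2 * H : ℤ) : GaussianInt)) β) := by ring
        _ = _ := by rw [hgsq, one_mul]
    have h22 : jacobiSym 2 n * jacobiSym 2 n = 1 := by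
      rw [← pow_two]
      exact jacobiSym.sq_one (Int.isCoprime_iff_gcd_eq_one.1 h2n)
    rw [e2, I1_int β ho (by rw [hnβ]; exact hcb), I1_int β ho (by rw [hnβ]; exact hcH), hnβ,
      Int.natAbs_natCast, ← Int.cast_mul]
    congr 1
    rw [← neg_one_mul, jacobiSym.mul_left (-1), I1_neg hn4, one_mul, jacobiSym.mul_left 2 b,
      jacobiSym.mul_left 2 H, I1_b hn hn4 hab hb0, I1_Q hn4 hk]
    linear_combination ((if b % 4 = 2 then -1 else 1) * (jacobiSym 2 n ^ padicValInt 2 H *
      Lp H fun l => jacobiSym (n : ℤ) l)) * h22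

theorem lemZ {x α : GaussianInt} (hα : Od α) (h : IsCoprime x α)
    (hk : α.re * x.im - α.im * x.re ≠ 0) :
    Q2 x α = (((if α.im % 4 = 2 then -1 else 1) *
      jacobiSym 2 α.norm.natAbs ^ (padicValInt 2 (α.re * x.im - α.im * x.re)) *
      Lp (α.re * x.im - α.im * x.re)
        (fun l => if (l : ℤ) ∣ α.norm then jacobiSym x.norm l else jacobiSym α.norm l) : ℤ) :
        GaussianInt) := by
  have hg : 0 < Int.gcd α.re α.im := by
    rw [Int.gcd_pos_iff]
    by_contra hcon
    push Not at hcon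
    apply hα.ne_zero
    ext
    · simpa using hcon.1
    · simpa using hcon.2
  obtain ⟨q, a, b, hq, hab, ha, hb⟩ := Int.exists_gcd_one' hg
  have hAA : α = ((q : ℤ) : GaussianInt) * ⟨a, b⟩ := by
    ext
    · simp [ha]
      ring
    · simp [hb]
      ring
  have hAn : α.norm = (q : ℤ) ^ 2 * (a ^ 2 + b ^ 2) := by
    rw [norm_val, ha, hb]
    ring
  have hoq : Od ((q : ℤ) : GaussianInt) := hα.of_dvd ⟨_, hAA⟩
  have hoβ : Od (⟨a, b⟩ : GaussianInt) := hα.of_dvd ⟨((q : ℤ) : GaussianInt), by rw [hAA]; ring⟩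
  have hq2 : q % 2 = 1 := by
    have := od_intCast.1 hoq
    omega
  obtain ⟨n, hn⟩ : ∃ n : ℕ, (n : ℤ) = a ^ 2 + b ^ 2 := ⟨(a ^ 2 + b ^ 2).toNat, by
    rw [Int.toNat_of_nonneg (by positivity)]⟩
  have hn4 : n % 4 = 1 := by
    have h1 := norm_mod_four hoβ
    rw [norm_val] at h1
    simp only at h1
    rw [← hn] at h1
    omega
  obtain ⟨k, hkdef⟩ : ∃ k, k = a * x.im - b * x.re := ⟨_, rfl⟩
  have hkk : α.re * x.im - α.im * x.re = (q : ℤ) * k := by
    rw [ha, hb, hkdef]
    ring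
  rw [hkk] at hk ⊢
  have hk0 : k ≠ 0 := fun h1 => hk (by rw [h1, mul_zero])
  have hq0 : (q : ℤ) ≠ 0 := by exact_mod_cast hq.ne'
  -- relation of the norms
  obtain ⟨R, hR⟩ : ∃ R, R = a * x.re + b * x.im := ⟨_, rfl⟩
  have hRk : R ^ 2 + k ^ 2 = (a ^ 2 + b ^ 2) * x.norm := by
    rw [norm_val, hR, hkdef]
    ring
  -- primes dividing `k` do not divide the norm of the primitive part
  have hprime : ∀ l : ℤ, Prime l → l ∣ k → ¬ l ∣ a ^ 2 + b ^ 2 := by
    intro l hlp hlk h2
    have hlR : l ∣ R := by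
      have h3 : l ∣ R ^ 2 := by
        have h4 : R ^ 2 = (a ^ 2 + b ^ 2) * x.norm - k * k := by
          rw [← hRk]
          ring
        rw [h4]
        exact dvd_sub (Dvd.dvd.mul_right h2 _) (Dvd.dvd.mul_left hlk _)
      exact hlp.dvd_of_dvd_pow h3
    obtain ⟨u, v, huv⟩ := h
    obtain ⟨R', hR'⟩ := hlR
    obtain ⟨k', hk'⟩ := hlk
    obtain ⟨n', hn'⟩ := h2
    have h3 : (⟨a, -b⟩ : GaussianInt) = (l : GaussianInt) *
        (u * ⟨R', k'⟩ + v * ((q * n' : ℤ) : GaussianInt)) := by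
      have h4 : (⟨a, -b⟩ : GaussianInt) * x = (l : GaussianInt) * ⟨R', k'⟩ := by
        have h5 : (⟨a, -b⟩ : GaussianInt) * x = ⟨R, k⟩ := by
          ext
          · rw [hR]
            simp
          · rw [hkdef]
            simp
            ring
        rw [h5, hR', hk']
        ext <;> simp
      have h6 : (⟨a, -b⟩ : GaussianInt) * α = (l : GaussianInt) * ((q * n' : ℤ) : GaussianInt) := by
        obtain ⟨m, hm⟩ : ∃ m : ℤ, m = q * (a ^ 2 + b ^ 2) := ⟨_, rfl⟩
        have h7 : (⟨a, -b⟩ : GaussianInt) * α = (m : GaussianInt) := by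
          ext
          · rw [Zsqrtd.re_mul, Zsqrtd.re_intCast, hm, ha, hb]
            ring
          · rw [Zsqrtd.im_mul, Zsqrtd.im_intCast, ha, hb]
            ring
        rw [h7, hm, hn', ← Int.cast_mul]
        congr 1
        ring
      calc (⟨a, -b⟩ : GaussianInt) = (⟨a, -b⟩ : GaussianInt) * (u * x + v * α) := by
            rw [huv, mul_one]
        _ = u * ((⟨a, -b⟩ : GaussianInt) * x) + v * ((⟨a, -b⟩ : GaussianInt) * α) := by ring
        _ = _ := by rw [h4, h6]; ring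
    have h4 := congrArg Zsqrtd.re h3
    have h5 := congrArg Zsqrtd.im h3
    have h6 : l ∣ a := by
      simp only [Zsqrtd.re_mul, Zsqrtd.re_intCast, Zsqrtd.im_intCast, mul_zero, zero_mul,
        add_zero] at h4
      exact ⟨_, h4⟩
    have h7 : l ∣ b := by
      simp only [Zsqrtd.im_mul, Zsqrtd.re_intCast, Zsqrtd.im_intCast, zero_mul,
        add_zero] at h5
      exact (dvd_neg).1 ⟨_, h5⟩
    have h8 : l ∣ 1 := by
      have := Int.dvd_coe_gcd h6 h7
      rwa [hab] at this
    exact hlp.not_isUnit (isUnit_of_dvd_one h8)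
  have hkn : IsCoprime k (n : ℤ) := by
    by_contra hcon
    have h1 : k.gcd n ≠ 1 := fun h2 => hcon (Int.isCoprime_iff_gcd_eq_one.2 h2)
    obtain ⟨l, hl, hld⟩ := Nat.exists_prime_and_dvd h1
    have h2 : (l : ℤ) ∣ k := (Int.natCast_dvd_natCast.2 hld).trans (Int.gcd_dvd_left ..)
    have h3 : (l : ℤ) ∣ n := (Int.natCast_dvd_natCast.2 hld).trans (Int.gcd_dvd_right ..)
    exact hprime l (Nat.prime_iff_prime_int.1 hl) h2 (by rw [← hn]; exact h3)
  have hxq : IsCoprime x ((q : ℤ) : GaussianInt) := by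
    rw [hAA] at h
    exact h.of_mul_right_left
  have hsplit : Q2 x α = Q2 x ((q : ℤ) : GaussianInt) * Q2 x ⟨a, b⟩ := by
    conv_lhs => rw [hAA]
    exact Q2_mul_right x hoq.ne_zero hoβ.ne_zero
  rw [hsplit, I1_rat (by omega) hxq, I1_prim hn hn4 hab (by rw [← hkdef]; exact hk0)
    (by rw [← hkdef]; exact hkn), ← hkdef, Int.natAbs_natCast, ← Int.cast_mul]
  congr 1
  -- the sign
  have s1 : (if α.im % 4 = 2 then (-1 : ℤ) else 1) = if b % 4 = 2 then -1 else 1 := by
    obtain ⟨c, hc⟩ : ∃ c, (q : ℤ) = 2 * c + 1 := ⟨(q : ℤ) / 2, by omega⟩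
    have h1 : α.im = b + 2 * (b * c) := by rw [hb, hc]; ring
    by_cases hb2 : b % 2 = 0
    · obtain ⟨d, hd⟩ : ∃ d, b = 2 * d := ⟨b / 2, by omega⟩
      have h2 : α.im = b + 4 * (d * c) := by rw [h1, hd]; ring
      have h3 : α.im % 4 = b % 4 := by rw [h2]; omega
      rw [h3]
    · rw [if_neg (by omega), if_neg (by omega)]
  -- the power of `(2/N)`
  have hq2c : IsCoprime (2 : ℤ) (q : ℤ) := by
    refine (Int.prime_two.coprime_iff_not_dvd).2 ?_
    omega
  have hn0 : n ≠ 0 := by omega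
  have s2 : jacobiSym 2 α.norm.natAbs = jacobiSym 2 n := by
    have h1 : α.norm.natAbs = q ^ 2 * n := by
      rw [hAn, ← hn, Int.natAbs_mul, Int.natAbs_pow, Int.natAbs_natCast, Int.natAbs_natCast]
    rw [h1, jacobiSym.mul_right' _ (pow_ne_zero 2 hq.ne') hn0, jacobiSym.pow_right,
      jacobiSym.sq_one (Int.isCoprime_iff_gcd_eq_one.1 hq2c), one_mul]
  have s3 : padicValInt 2 ((q : ℤ) * k) = padicValInt 2 k := by
    unfold padicValInt
    rw [Int.natAbs_mul, Int.natAbs_natCast, padicValNat.mul hq.ne' (Int.natAbs_ne_zero.2 hk0),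
      padicValNat.eq_zero_of_not_dvd (by omega), zero_add]
  have s4 : Lp ((q : ℤ) * k) (fun l => if (l : ℤ) ∣ α.norm then jacobiSym x.norm l
      else jacobiSym α.norm l) = jacobiSym x.norm q * Lp k (fun l => jacobiSym (n : ℤ) l) := by
    rw [I1_mul hq0 hk0, I1_Lrat _ hq2]
    congr 1
    · refine I1_congr fun l _ _ hl => ?_
      have h2 : (l : ℤ) ∣ α.norm := by
        rw [hAn]
        exact Dvd.dvd.mul_right (Dvd.dvd.pow hl two_ne_zero) _
      rw [if_pos h2]
    · refine I1_congr fun l hl hl2 hlk => ?_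
      have hlp : Prime (l : ℤ) := Nat.prime_iff_prime_int.1 hl
      have hln := hprime l hlp hlk
      have hnl : (a ^ 2 + b ^ 2).gcd l = 1 :=
        Int.isCoprime_iff_gcd_eq_one.1 ((hlp.coprime_iff_not_dvd).2 hln).symm
      rw [hn]
      by_cases hlq : (l : ℤ) ∣ q
      · have h2 : (l : ℤ) ∣ α.norm := by
          rw [hAn]
          exact Dvd.dvd.mul_right (Dvd.dvd.pow hlq two_ne_zero) _
        rw [if_pos h2]
        have hcx : IsCoprime x.norm (l : ℤ) :=
          (I1_norm_coprime hxq).of_isCoprime_of_dvd_right hlq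
        have hxl : x.norm.gcd l = 1 := Int.isCoprime_iff_gcd_eq_one.1 hcx
        have hlx : ¬ (l : ℤ) ∣ x.norm := fun h3 =>
          hlp.not_isUnit (hcx.symm.isUnit_of_dvd h3)
        have h3 : jacobiSym (a ^ 2 + b ^ 2) l * jacobiSym x.norm l = 1 := by
          rw [← jacobiSym.mul_left, ← hRk]
          obtain ⟨c, hc⟩ := hlk
          have h4 : (R ^ 2 + k ^ 2) % l = (R ^ 2) % l := by
            rw [show R ^ 2 + k ^ 2 = R ^ 2 + l * (c * k) by
              rw [pow_two k]; nth_rewrite 1 [hc]; ring, Int.add_mul_emod_self_left]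
          rw [jacobiSym.mod_left' h4]
          refine jacobiSym.sq_one' ?_
          have h5 : ¬ (l : ℤ) ∣ R := by
            intro h6
            have h7 : (l : ℤ) ∣ (a ^ 2 + b ^ 2) * x.norm := by
              rw [← hRk]
              exact dvd_add (Dvd.dvd.pow h6 two_ne_zero) (Dvd.dvd.pow ⟨c, hc⟩ two_ne_zero)
            rcases hlp.dvd_or_dvd h7 with h8 | h8
            · exact hln h8
            · exact hlx h8
          exact Int.isCoprime_iff_gcd_eq_one.1 ((hlp.coprime_iff_not_dvd).2 h5).symm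
        rcases jacobiSym.eq_one_or_neg_one hnl with h4 | h4 <;>
          rcases jacobiSym.eq_one_or_neg_one hxl with h5 | h5 <;>
          rw [h4, h5] at h3 ⊢ <;> norm_num at h3
      · have h2 : ¬ (l : ℤ) ∣ α.norm := by
          rw [hAn]
          intro h3
          rcases hlp.dvd_or_dvd h3 with h4 | h4
          · exact hlq (hlp.dvd_of_dvd_pow h4)
          · exact hln h4
        rw [if_neg h2, hAn, jacobiSym.mul_left]
        have h3 : ((q : ℤ)).gcd l = 1 :=
          Int.isCoprime_iff_gcd_eq_one.1 ((hlp.coprime_iff_not_dvd).2 hlq).symm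
        rw [jacobiSym.sq_one' h3, one_mul]
  rw [s1, s2, s3, s4]
  ring

end gauss

end Pool.Agent.TM32
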