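import Pool.Agent.Lib_helper51.TM32.Defs2
import Pool.Agent.Lib_helper33.TM32.Z2

/-!
TM32, block Z4 (helper37): Lemma Y
-/

set_option autoImplicit false

namespace Pool.Agent.TM32

open Zsqrtd

/-! BEGIN STUBS (Z1) -/

/-! END STUBS -/

theorem Z4_two {n : ℕ} (hn : n % 8 = 1) : jacobiSym 2 n = 1 := by
  rw [jacobiSym.at_two (Nat.odd_iff.2 (by omega)), ZMod.χ₈_nat_eq_if_mod_eight]
  simp [hn, show n % 2 = 1 by omega]

theorem Z4_neg {n : ℕ} (hn : n % 8 = 1) : jacobiSym (-1) n = 1 := by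
  rw [jacobiSym.at_neg_one (Nat.odd_iff.2 (by omega)), ZMod.χ₄_nat_one_mod_four (by omega)]

theorem Z4_list {n : ℕ} (hn : n % 8 = 1) (L : List ℕ) (hL : ∀ l ∈ L, l.Prime) :
    jacobiSym ((L.prod : ℕ) : ℤ) n =
      ((L.filter (fun l => l ≠ 2)).map (fun l => jacobiSym (n : ℤ) l)).prod := by
  induction L with
  | nil => simp
  | cons l L ih =>
    have h1 := ih fun x hx => hL x (List.mem_cons_of_mem _ hx)
    have hl : l.Prime := hL l List.mem_cons_self
    rw [List.prod_cons, Nat.cast_mul, jacobiSym.mul_left, h1]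
    by_cases h2 : l = 2
    · subst h2
      rw [List.filter_cons_of_neg (by simp)]
      have h3 : jacobiSym ((2 : ℕ) : ℤ) n = 1 := Z4_two hn
      rw [h3, one_mul]
    · rw [List.filter_cons_of_pos (by simpa using h2), List.map_cons, List.prod_cons]
      rw [jacobiSym.quadratic_reciprocity_one_mod_four' (hl.odd_of_ne_two h2) (by omega)]

theorem Z4_Q {n : ℕ} (hn : n % 8 = 1) {k : ℤ} (hk : k ≠ 0) :
    jacobiSym k n = Lp k (fun l => jacobiSym (n : ℤ) l) := by
  have h0 : k.natAbs ≠ 0 := Int.natAbs_ne_zero.2 hk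
  have h1 : jacobiSym (k.natAbs : ℤ) n = Lp k (fun l => jacobiSym (n : ℤ) l) := by
    have h2 := Z4_list hn k.natAbs.primeFactorsList fun l hl => Nat.prime_of_mem_primeFactorsList hl
    rw [Nat.prod_primeFactorsList h0] at h2
    exact h2
  rcases Int.natAbs_eq k with h | h
  · rw [← h1, ← h]
  · rw [← h1]
    conv_lhs => rw [h]
    rw [← neg_one_mul, jacobiSym.mul_left, Z4_neg hn, one_mul]

theorem Z4_mul {k k' : ℤ} (hk : k ≠ 0) (hk' : k' ≠ 0) (f : ℕ → ℤ) :
    Lp (k * k') f = Lp k f * Lp k' f := by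
  unfold Lp
  rw [Int.natAbs_mul, (((Nat.perm_primeFactorsList_mul (Int.natAbs_ne_zero.2 hk)
    (Int.natAbs_ne_zero.2 hk')).filter _).map f).prod_eq, List.filter_append, List.map_append,
    List.prod_append]

theorem Z4_congr {k : ℤ} {f g : ℕ → ℤ}
    (h : ∀ l : ℕ, l.Prime → l ≠ 2 → (l : ℤ) ∣ k → f l = g l) : Lp k f = Lp k g := by
  unfold Lp
  congr 1
  refine List.map_congr_left fun l hl => ?_
  rw [List.mem_filter] at hl
  refine h l (Nat.prime_of_mem_primeFactorsList hl.1) (by simpa using hl.2) ?_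
  exact Int.natCast_dvd.2 (Nat.dvd_of_mem_primeFactorsList hl.1)

theorem Z4_rat (a : ℤ) {q : ℕ} (hq : q % 2 = 1) :
    jacobiSym a q = Lp (q : ℤ) (fun l => jacobiSym a l) := by
  have h0 : q ≠ 0 := by omega
  unfold Lp
  rw [Int.natAbs_natCast]
  have h1 : q.primeFactorsList.filter (fun l => l ≠ 2) = q.primeFactorsList := by
    refine List.filter_eq_self.2 fun l hl => ?_
    have h2 := Nat.dvd_of_mem_primeFactorsList hl
    have h3 : l ≠ 2 := fun h => by
      rw [h] at h2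
      omega
    simpa using h3
  rw [h1, ← jacobiSym.list_prod_right, Nat.prod_primeFactorsList h0]
  intro l hl
  exact (Nat.prime_of_mem_primeFactorsList hl).ne_zero

/-- the case of a primitive denominator -/
theorem Z4_prim {a b x0 x1 : ℤ} (ha : a % 2 = 1) (hb : b % 2 = 0) (hab : Int.gcd a b = 1)
    (hk : a * x1 - b * x0 ≠ 0) :
    jacobiSym ((x0 * a + 2 * x1 * b) * a) (a ^ 2 + 2 * b ^ 2).natAbs =
      Lp (a * x1 - b * x0) (fun l => jacobiSym (a ^ 2 + 2 * b ^ 2) l) := by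
  have hpos : 0 < a ^ 2 + 2 * b ^ 2 := by
    have h1 : a ≠ 0 := by omega
    positivity
  obtain ⟨n, hn⟩ : ∃ n : ℕ, (n : ℤ) = a ^ 2 + 2 * b ^ 2 := ⟨(a ^ 2 + 2 * b ^ 2).toNat, by
    rw [Int.toNat_of_nonneg hpos.le]⟩
  have hn8 : n % 8 = 1 := by
    obtain ⟨c, hc⟩ : ∃ c, a = 2 * c + 1 := ⟨a / 2, by omega⟩
    obtain ⟨d, hd⟩ : ∃ d, b = 2 * d := ⟨b / 2, by omega⟩
    have h1 : (n : ℤ) = 4 * (c * (c + 1)) + 1 + 8 * d ^ 2 := by
      rw [hn, hc, hd]
      ring
    have h2 : (c * (c + 1)) % 2 = 0 := Int.even_iff.1 (Int.even_mul_succ_self c)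
    omega
  rw [← hn, Int.natAbs_natCast, ← Z4_Q hn8 hk]
  have han : (a : ℤ).gcd n = 1 := by
    have h1 : IsCoprime a b := Int.isCoprime_iff_gcd_eq_one.2 hab
    have h2 : IsCoprime a (n : ℤ) := by
      have h3 : IsCoprime a (2 * b ^ 2) := by
        refine IsCoprime.mul_right ?_ (h1.pow_right)
        rw [Int.isCoprime_iff_gcd_eq_one, Int.gcd_comm]
        have h4 : ¬ (2 : ℤ) ∣ a := by omega
        exact Int.isCoprime_iff_gcd_eq_one.1 ((Int.prime_two.coprime_iff_not_dvd).2 h4)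
      have h5 : (n : ℤ) = 2 * b ^ 2 + a * a := by rw [hn]; ring
      rw [h5]
      exact IsCoprime.add_mul_left_right h3 a
    exact Int.isCoprime_iff_gcd_eq_one.1 h2
  have ha2 : jacobiSym a n * jacobiSym a n = 1 := by
    rw [← _root_.sq]
    exact jacobiSym.sq_one han
  by_cases hb0 : b = 0
  · have h1 : a ^ 2 = 1 := by
      rw [hb0, Int.gcd_zero_right] at hab
      rw [← Int.natAbs_sq, hab]
      rfl
    have h2 : n = 1 := by
      have h3 : (n : ℤ) = 1 := by rw [hn, hb0, h1]; norm_num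
      exact_mod_cast h3
    rw [h2, jacobiSym.one_right, jacobiSym.one_right]
  · -- `(b / n) = 1`
    have hbn : jacobiSym b n = 1 := by
      rw [Z4_Q hn8 hb0]
      have h1 : Lp b (fun l => jacobiSym (n : ℤ) l) = Lp b (fun _ => 1) := by
        refine Z4_congr fun l hl _ hlb => ?_
        have h2 : ((n : ℤ)) % l = (a ^ 2) % l := by
          obtain ⟨c, hc⟩ := hlb
          rw [hn, hc]
          refine Int.emod_emod_of_dvd _ (dvd_refl _) |>.symm.trans ?_
          rw [show a ^ 2 + 2 * ((l : ℤ) * c) ^ 2 = a ^ 2 + l * (2 * l * c ^ 2) by ring,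
            Int.add_mul_emod_self_left, Int.emod_emod_of_dvd _ (dvd_refl _)]
        rw [jacobiSym.mod_left' h2]
        refine jacobiSym.sq_one' ?_
        have h3 : IsCoprime a (l : ℤ) := by
          refine (Int.isCoprime_iff_gcd_eq_one.2 hab).of_isCoprime_of_dvd_right hlb
        exact Int.isCoprime_iff_gcd_eq_one.1 h3
      rw [h1]
      unfold Lp
      rw [List.map_const', List.prod_replicate, one_pow]
    have h1 : jacobiSym ((x0 * a + 2 * x1 * b) * a * b) n =
        jacobiSym (-1 * (a * a * (a * x1 - b * x0))) n := by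
      refine jacobiSym.mod_left' ?_
      have h2 : (x0 * a + 2 * x1 * b) * a * b =
          -1 * (a * a * (a * x1 - b * x0)) + n * (a * x1) := by
        rw [hn]
        ring
      rw [h2, Int.add_mul_emod_self_left]
    rw [jacobiSym.mul_left, hbn, mul_one, jacobiSym.mul_left (-1), Z4_neg hn8, one_mul,
      jacobiSym.mul_left (a * a), jacobiSym.mul_left a a, ha2, one_mul] at h1
    exact h1

theorem lemY {x A : Zs} (hA : Op A) (h : IsCoprime x A) (hk : A.re * x.im - A.im * x.re ≠ 0) :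
    qs x A = Lp (A.re * x.im - A.im * x.re)
      (fun l => if (l : ℤ) ∣ A.norm then jacobiSym x.norm l else jacobiSym A.norm l) := by
  obtain ⟨hA1, hA2⟩ := hA
  have hg : 0 < Int.gcd A.re A.im := Int.gcd_pos_of_ne_zero_left _ (by omega)
  obtain ⟨q, a, b, hq, hab, ha, hb⟩ := Int.exists_gcd_one' hg
  have hq2 : q % 2 = 1 := by
    by_contra h1
    have h2 : (2 : ℤ) ∣ A.re := by
      rw [ha]
      exact Dvd.dvd.mul_left (by omega) _
    omega
  have ha2 : a % 2 = 1 := by
    by_contra h1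
    have h2 : (2 : ℤ) ∣ A.re := by
      rw [ha]
      exact Dvd.dvd.mul_right (by omega) _
    omega
  have hb2 : b % 2 = 0 := by
    have h1 : (2 : ℤ) ∣ b * q := by
      rw [← hb]
      omega
    rcases Int.prime_two.dvd_or_dvd h1 with h2 | h2 <;> omega
  have hAA : A = ((q : ℤ) : Zs) * ⟨a, b⟩ := by
    ext
    · simp [ha]
      ring
    · simp [hb]
      ring
  have hn : (⟨a, b⟩ : Zs).norm = a ^ 2 + 2 * b ^ 2 := nv _
  have hAn : A.norm = (q : ℤ) ^ 2 * (a ^ 2 + 2 * b ^ 2) := by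
    rw [nv, ha, hb]
    ring
  obtain ⟨k, hkdef⟩ : ∃ k, k = a * x.im - b * x.re := ⟨_, rfl⟩
  have hkk : A.re * x.im - A.im * x.re = (q : ℤ) * k := by
    rw [ha, hb, hkdef]
    ring
  rw [hkk] at hk ⊢
  have hk0 : k ≠ 0 := fun h1 => hk (by rw [h1, mul_zero])
  have hq0 : (q : ℤ) ≠ 0 := by exact_mod_cast hq.ne'
  have hodd : (⟨a, b⟩ : Zs).norm % 2 = 1 := by
    rw [hn]
    have h1 : a ^ 2 % 2 = 1 := by
      have h2 : Odd (a ^ 2) := (Int.odd_iff.2 ha2).pow
      exact Int.odd_iff.1 h2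
    omega
  have h1 : qs x A = qs x ((q : ℤ) : Zs) * qs x ⟨a, b⟩ := by
    conv_lhs => rw [hAA]
    refine qs_mul_right x ?_ ?_
    · intro h2
      apply hq0
      have := congrArg Zsqrtd.re h2
      simpa using this
    · intro h2
      have := congrArg Zsqrtd.re h2
      simp only [Zsqrtd.re_zero] at this
      omega
  rw [h1, qs_rat x (by omega : (q : ℤ) % 2 = 1), Int.natAbs_natCast, qs_prim x hodd hab, hn]
  simp only
  rw [Z4_prim ha2 hb2 hab (by rw [← hkdef]; exact hk0), Z4_rat _ hq2, ← hkdef, Z4_mul hq0 hk0]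
  -- relation of the norms
  obtain ⟨R, hR⟩ : ∃ R, R = a * x.re + 2 * b * x.im := ⟨_, rfl⟩
  have hRk : R ^ 2 + 2 * k ^ 2 = (a ^ 2 + 2 * b ^ 2) * x.norm := by
    rw [nv, hR, hkdef]
    ring
  congr 1
  · refine Z4_congr fun l _ _ hl => ?_
    have h2 : (l : ℤ) ∣ A.norm := by
      rw [hAn]
      exact Dvd.dvd.mul_right (Dvd.dvd.pow hl two_ne_zero) _
    rw [if_pos h2]
  · refine Z4_congr fun l hl hl2 hlk => ?_
    have hlp : Prime (l : ℤ) := Nat.prime_iff_prime_int.1 hl
    -- `l` does not divide the norm of the primitive part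
    have hln : ¬ (l : ℤ) ∣ a ^ 2 + 2 * b ^ 2 := by
      intro h2
      have hlR : (l : ℤ) ∣ R := by
        have h3 : (l : ℤ) ∣ R ^ 2 := by
          have h4 : R ^ 2 = (a ^ 2 + 2 * b ^ 2) * x.norm - 2 * k * k := by
            rw [← hRk]
            ring
          rw [h4]
          exact dvd_sub (Dvd.dvd.mul_right h2 _) (Dvd.dvd.mul_left hlk _)
        exact hlp.dvd_of_dvd_pow h3
      obtain ⟨u, v, huv⟩ := h
      obtain ⟨R', hR'⟩ := hlR
      obtain ⟨k', hk'⟩ := hlk
      obtain ⟨n', hn'⟩ := h2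
      -- `l` divides the conjugate of the primitive part
      have h3 : (⟨a, -b⟩ : Zs) = ((l : ℤ) : Zs) * (u * ⟨R', k'⟩ + v * ((q * n' : ℤ) : Zs)) := by
        have h4 : (⟨a, -b⟩ : Zs) * x = ((l : ℤ) : Zs) * ⟨R', k'⟩ := by
          have h5 : (⟨a, -b⟩ : Zs) * x = ⟨R, k⟩ := by
            ext
            · rw [hR]
              simp
            · rw [hkdef]
              simp
              ring
          rw [h5, hR', hk']
          ext <;> simp
        have h6 : (⟨a, -b⟩ : Zs) * A = ((l : ℤ) : Zs) * ((q * n' : ℤ) : Zs) := by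
          obtain ⟨m, hm⟩ : ∃ m : ℤ, m = q * (a ^ 2 + 2 * b ^ 2) := ⟨_, rfl⟩
          have h7 : (⟨a, -b⟩ : Zs) * A = (m : Zs) := by
            ext
            · rw [Zsqrtd.re_mul, Zsqrtd.re_intCast, hm, ha, hb]
              ring
            · rw [Zsqrtd.im_mul, Zsqrtd.im_intCast, ha, hb]
              ring
          rw [h7, hm, hn', ← Int.cast_mul]
          congr 1
          ring
        calc (⟨a, -b⟩ : Zs) = (⟨a, -b⟩ : Zs) * (u * x + v * A) := by rw [huv, mul_one]
          _ = u * ((⟨a, -b⟩ : Zs) * x) + v * ((⟨a, -b⟩ : Zs) * A) := by ring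
          _ = _ := by rw [h4, h6]; ring
      have h4 := congrArg Zsqrtd.re h3
      have h5 := congrArg Zsqrtd.im h3
      have h6 : (l : ℤ) ∣ a := by
        simp only [Zsqrtd.re_mul, Zsqrtd.re_intCast, Zsqrtd.im_intCast, mul_zero, zero_mul,
          add_zero] at h4
        exact ⟨_, h4⟩
      have h7 : (l : ℤ) ∣ b := by
        simp only [Zsqrtd.im_mul, Zsqrtd.re_intCast, Zsqrtd.im_intCast, zero_mul,
          add_zero] at h5
        exact (dvd_neg).1 ⟨_, h5⟩
      have h8 : (l : ℤ) ∣ 1 := by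
        have := Int.dvd_coe_gcd h6 h7
        rwa [hab] at this
      exact hlp.not_isUnit (isUnit_of_dvd_one h8)
    have hnl : (a ^ 2 + 2 * b ^ 2).gcd l = 1 :=
      Int.isCoprime_iff_gcd_eq_one.1 ((hlp.coprime_iff_not_dvd).2 hln).symm
    by_cases hlq : (l : ℤ) ∣ q
    · have h2 : (l : ℤ) ∣ A.norm := by
        rw [hAn]
        exact Dvd.dvd.mul_right (Dvd.dvd.pow hlq two_ne_zero) _
      rw [if_pos h2]
      have hlx : ¬ (l : ℤ) ∣ x.norm := by
        intro h3
        obtain ⟨u, v, huv⟩ := h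
        obtain ⟨c, hc⟩ := hlq
        obtain ⟨d, hd⟩ := h3
        have h4 : (u * x).norm = (1 - ((l : ℤ) : Zs) * (v * ((c : ℤ) : Zs) * ⟨a, b⟩)).norm := by
          congr 1
          rw [hAA, hc] at huv
          rw [← huv]
          push_cast
          ring
        rw [Zsqrtd.norm_mul, hd] at h4
        obtain ⟨w, hw⟩ : ∃ w : Zs, w = v * ((c : ℤ) : Zs) * ⟨a, b⟩ := ⟨_, rfl⟩
        rw [← hw, nv (1 - _)] at h4
        simp only [Zsqrtd.re_sub, Zsqrtd.im_sub, Zsqrtd.re_one, Zsqrtd.im_one, Zsqrtd.re_mul,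
          Zsqrtd.im_mul, Zsqrtd.re_intCast, Zsqrtd.im_intCast, mul_zero, zero_mul, add_zero] at h4
        have h5 : (l : ℤ) ∣ 1 := by
          refine ⟨u.norm * d + (2 * w.re - l * w.re ^ 2 - 2 * l * w.im ^ 2), ?_⟩
          linear_combination (-1 : ℤ) * h4
        exact hlp.not_isUnit (isUnit_of_dvd_one h5)
      have hxl : x.norm.gcd l = 1 :=
        Int.isCoprime_iff_gcd_eq_one.1 ((hlp.coprime_iff_not_dvd).2 hlx).symm
      have h3 : jacobiSym (a ^ 2 + 2 * b ^ 2) l * jacobiSym x.norm l = 1 := by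
        rw [← jacobiSym.mul_left, ← hRk]
        obtain ⟨c, hc⟩ := hlk
        have h4 : (R ^ 2 + 2 * k ^ 2) % l = (R ^ 2) % l := by
          rw [show R ^ 2 + 2 * k ^ 2 = R ^ 2 + l * (2 * c * k) by
            rw [_root_.sq k]; nth_rewrite 1 [hc]; ring, Int.add_mul_emod_self_left]
        rw [jacobiSym.mod_left' h4]
        refine jacobiSym.sq_one' ?_
        have h5 : ¬ (l : ℤ) ∣ R := by
          intro h6
          have h7 : (l : ℤ) ∣ (a ^ 2 + 2 * b ^ 2) * x.norm := by
            rw [← hRk]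
            refine dvd_add (Dvd.dvd.pow h6 two_ne_zero) (Dvd.dvd.mul_left ?_ _)
            exact Dvd.dvd.pow ⟨c, hc⟩ two_ne_zero
          rcases hlp.dvd_or_dvd h7 with h8 | h8
          · exact hln h8
          · exact hlx h8
        exact Int.isCoprime_iff_gcd_eq_one.1 ((hlp.coprime_iff_not_dvd).2 h5).symm
      rcases jacobiSym.eq_one_or_neg_one hnl with h4 | h4 <;>
        rcases jacobiSym.eq_one_or_neg_one hxl with h5 | h5 <;>
        rw [h4, h5] at h3 ⊢ <;> norm_num at h3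
    · have h2 : ¬ (l : ℤ) ∣ A.norm := by
        rw [hAn]
        intro h3
        rcases hlp.dvd_or_dvd h3 with h4 | h4
        · exact hlq (hlp.dvd_of_dvd_pow h4)
        · exact hln h4
      rw [if_neg h2, hAn, jacobiSym.mul_left]
      have h3 : ((q : ℤ)).gcd l = 1 :=
        Int.isCoprime_iff_gcd_eq_one.1 ((hlp.coprime_iff_not_dvd).2 hlq).symm
      rw [jacobiSym.sq_one' h3, one_mul]

end Pool.Agent.TM32
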