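import Mathlib

/-!
TM32, block D1 (helper37): the divisor bound in a factorial ring with a norm
-/

set_option autoImplicit false

namespace Pool.Agent.TM32

open UniqueFactorizationMonoid

theorem D1_K (ε : ℝ) (hε : 0 < ε) : ∃ K : ℝ, 1 ≤ K ∧
    ∀ (e : ℕ) (x : ℝ), 2 ≤ x → (e : ℝ) + 1 ≤ K * (x ^ e) ^ ε := by
  have hl : 0 < ε * Real.log 2 := mul_pos hε (Real.log_pos one_lt_two)
  refine ⟨max 1 (ε * Real.log 2)⁻¹, le_max_left _ _, fun e x hx => ?_⟩
  have hx0 : 0 < x := by linarith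
  have h1 : 1 + ε * Real.log 2 * e ≤ (x ^ e) ^ ε := by
    have h2 : (x ^ e) ^ ε = Real.exp (ε * (e * Real.log x)) := by
      rw [Real.rpow_def_of_pos (pow_pos hx0 e), Real.log_pow]
      congr 1
      ring
    have h3 : ε * Real.log 2 * e ≤ ε * (e * Real.log x) := by
      have h4 : Real.log 2 ≤ Real.log x := Real.log_le_log (by norm_num) hx
      have h5 : (0 : ℝ) ≤ ε * e := by positivity
      nlinarith
    rw [h2]
    have := Real.add_one_le_exp (ε * (e * Real.log x))
    linarith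
  have h6 : (e : ℝ) + 1 ≤ max 1 (ε * Real.log 2)⁻¹ * (1 + ε * Real.log 2 * e) := by
    have h7 : (1 : ℝ) ≤ max 1 (ε * Real.log 2)⁻¹ := le_max_left _ _
    have h8 : 1 ≤ max 1 (ε * Real.log 2)⁻¹ * (ε * Real.log 2) := by
      calc (1 : ℝ) = (ε * Real.log 2)⁻¹ * (ε * Real.log 2) := (inv_mul_cancel₀ hl.ne').symm
        _ ≤ _ := mul_le_mul_of_nonneg_right (le_max_right _ _) hl.le
    have h9 : (0 : ℝ) ≤ e := Nat.cast_nonneg _
    nlinarith
  refine h6.trans (mul_le_mul_of_nonneg_left h1 (le_trans zero_le_one (le_max_left _ _)))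

theorem D1_big (ε : ℝ) (hε : 0 < ε) : ∃ B : ℕ,
    ∀ (e : ℕ) (x : ℝ), (B : ℝ) ≤ x → (e : ℝ) + 1 ≤ (x ^ e) ^ ε := by
  refine ⟨⌈(2 : ℝ) ^ (1 / ε)⌉₊, fun e x hx => ?_⟩
  have h0 : (0 : ℝ) < (2 : ℝ) ^ (1 / ε) := Real.rpow_pos_of_pos two_pos _
  have h1 : (2 : ℝ) ^ (1 / ε) ≤ x := (Nat.le_ceil _).trans hx
  have hx0 : 0 < x := h0.trans_le h1
  have h2 : 2 ≤ x ^ ε := by
    calc (2 : ℝ) = ((2 : ℝ) ^ (1 / ε)) ^ ε := by
          rw [← Real.rpow_mul two_pos.le, one_div_mul_cancel hε.ne', Real.rpow_one]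
      _ ≤ x ^ ε := Real.rpow_le_rpow h0.le h1 hε.le
  have h3 : (x ^ e) ^ ε = (x ^ ε) ^ e := by
    rw [← Real.rpow_natCast, ← Real.rpow_natCast, ← Real.rpow_mul hx0.le, ← Real.rpow_mul hx0.le,
      mul_comm]
  rw [h3]
  calc (e : ℝ) + 1 ≤ 2 ^ e := by exact_mod_cast (Nat.lt_two_pow_self : e < 2 ^ e)
    _ ≤ (x ^ ε) ^ e := pow_le_pow_left₀ two_pos.le h2 e

theorem div_bound {Λ : Type} [CommRing Λ] [IsDomain Λ] [UniqueFactorizationMonoid Λ]
    (N : Λ → ℕ) (hmul : ∀ x y, N (x * y) = N x * N y) (h0 : ∀ x, x ≠ 0 → 1 ≤ N x)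
    (h1 : ∀ x, N x = 1 → IsUnit x)
    (hfin : ∀ B : ℕ, ∃ S : Finset Λ, ∀ x, x ≠ 0 → N x ≤ B → ∃ y ∈ S, Associated x y)
    (ε : ℝ) (hε : 0 < ε) :
    ∃ C : ℝ, ∀ z : Λ, z ≠ 0 → ∀ X : Finset Λ, (∀ x ∈ X, x ∣ z) →
      (∀ x ∈ X, ∀ y ∈ X, Associated x y → x = y) → (X.card : ℝ) ≤ C * (N z : ℝ) ^ ε := by
  classical
  obtain ⟨K, hK1, hK⟩ := D1_K ε hε
  obtain ⟨B, hB⟩ := D1_big ε hε
  obtain ⟨S, hS⟩ := hfin B
  -- the norm on associates
  have hN1 : N 1 = 1 := by
    have h2 := hmul 1 1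
    rw [mul_one] at h2
    have h3 := h0 1 one_ne_zero
    nlinarith
  have hunit : ∀ u : Λˣ, N u = 1 := fun u => by
    have h2 := hmul u (u⁻¹ : Λˣ)
    rw [Units.mul_inv, hN1] at h2
    exact Nat.eq_one_of_mul_eq_one_right h2.symm
  have hass : ∀ x y, Associated x y → N x = N y := by
    rintro x _ ⟨u, rfl⟩
    rw [hmul, hunit, mul_one]
  have hmk : ∀ x : Λ, N (Quot.out (Associates.mk x)) = N x := fun x =>
    hass _ _ (Associates.mk_eq_mk_iff_associated.1 (Associates.quot_out _))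
  let f : Associates Λ →* ℕ :=
    { toFun := fun a => N (Quot.out a)
      map_one' := by
        rw [← Associates.mk_one, hmk, hN1]
      map_mul' := fun a b => by
        have h2 : a * b = Associates.mk (Quot.out a * Quot.out b) := by
          rw [← Associates.mk_mul_mk, Associates.quot_out, Associates.quot_out]
        rw [← hmul]
        conv_lhs => rw [h2]
        exact hmk _ }
  have hf : ∀ x : Λ, f (Associates.mk x) = N x := hmk
  refine ⟨K ^ S.card, fun z hz X hX hX2 => ?_⟩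
  have hz' : Associates.mk z ≠ 0 := fun h => hz (Associates.mk_eq_zero.1 h)
  set s : Multiset (Associates Λ) := normalizedFactors (Associates.mk z) with hs
  have hx0 : ∀ x ∈ X, Associates.mk x ≠ 0 := fun x hx h => by
    have h2 := Associates.mk_eq_zero.1 h
    have h3 := hX x hx
    rw [h2] at h3
    exact hz (zero_dvd_iff.1 h3)
  -- divisors are sub-multisets
  have hcard : X.card ≤ ∏ i ∈ s.toFinset, (s.count i + 1) := by
    rw [← Multiset.card_Iic]
    refine Finset.card_le_card_of_injOn (fun x => normalizedFactors (Associates.mk x))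
      (fun x hx => ?_) (fun x hx y hy hxy => ?_)
    · rw [Finset.mem_coe, Finset.mem_Iic]
      exact (dvd_iff_normalizedFactors_le_normalizedFactors (hx0 x hx) hz').1
        (Associates.mk_dvd_mk.2 (hX x hx))
    · have h2 := (associated_iff_normalizedFactors_eq_normalizedFactors (hx0 x hx)
        (hx0 y hy)).2 hxy
      exact hX2 x hx y hy (Associates.mk_eq_mk_iff_associated.1 (associated_iff_eq.1 h2))
  -- the norm of `z`
  have hNz : (N z : ℝ) = ∏ i ∈ s.toFinset, (f i : ℝ) ^ s.count i := by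
    have h2 : s.prod = Associates.mk z := by
      have := prod_normalizedFactors hz'
      exact associated_iff_eq.1 this
    have h3 : N z = (s.map f).prod := by
      rw [Multiset.prod_hom, h2, hf]
    rw [h3, Finset.prod_multiset_map_count]
    push_cast
    rfl
  have hprime : ∀ i ∈ s.toFinset, 2 ≤ f i := fun i hi => by
    have h2 : Prime i := prime_of_normalized_factor i (Multiset.mem_toFinset.1 hi)
    have h3 : Quot.out i ≠ 0 := fun h => h2.ne_zero (by
      rw [← Associates.quot_out i, h, Associates.mk_zero])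
    have h4 := h0 _ h3
    have h5 : f i ≠ 1 := fun h => by
      have h6 := h1 _ h
      apply h2.not_isUnit
      rw [← Associates.quot_out i]
      exact (Associates.isUnit_mk).2 h6
    have h7 : 1 ≤ f i := h4
    omega
  -- the comparison
  have hle : (∏ i ∈ s.toFinset, ((s.count i : ℝ) + 1)) ≤
      ∏ i ∈ s.toFinset, ((if f i < B then K else 1) * ((f i : ℝ) ^ s.count i) ^ ε) := by
    refine Finset.prod_le_prod (fun i _ => by positivity) fun i hi => ?_
    have h2 : (2 : ℝ) ≤ f i := by exact_mod_cast hprime i hi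
    split_ifs with h3
    · exact hK _ _ h2
    · rw [one_mul]
      exact hB _ _ (by exact_mod_cast not_lt.1 h3)
  have hK0 : (0 : ℝ) ≤ K := by linarith
  have hsmall : (∏ i ∈ s.toFinset, (if f i < B then K else (1 : ℝ))) ≤ K ^ S.card := by
    rw [Finset.prod_ite, Finset.prod_const_one, mul_one, Finset.prod_const]
    refine pow_le_pow_right₀ hK1 ?_
    have h2 : (s.toFinset.filter fun i => f i < B) ⊆ S.image Associates.mk := by
      intro i hi
      obtain ⟨h3, h4⟩ := Finset.mem_filter.1 hi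
      have h5 : Prime i := prime_of_normalized_factor i (Multiset.mem_toFinset.1 h3)
      have h6 : Quot.out i ≠ 0 := fun h => h5.ne_zero (by
        rw [← Associates.quot_out i, h, Associates.mk_zero])
      obtain ⟨y, hy, hy2⟩ := hS _ h6 h4.le
      refine Finset.mem_image.2 ⟨y, hy, ?_⟩
      rw [← Associates.mk_eq_mk_iff_associated.2 hy2, Associates.quot_out]
    exact (Finset.card_le_card h2).trans Finset.card_image_le
  calc (X.card : ℝ) ≤ ((∏ i ∈ s.toFinset, (s.count i + 1) : ℕ) : ℝ) := by exact_mod_cast hcard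
    _ = ∏ i ∈ s.toFinset, ((s.count i : ℝ) + 1) := by push_cast; rfl
    _ ≤ ∏ i ∈ s.toFinset, ((if f i < B then K else 1) * ((f i : ℝ) ^ s.count i) ^ ε) := hle
    _ = (∏ i ∈ s.toFinset, (if f i < B then K else (1 : ℝ))) *
        ∏ i ∈ s.toFinset, ((f i : ℝ) ^ s.count i) ^ ε := Finset.prod_mul_distrib
    _ = (∏ i ∈ s.toFinset, (if f i < B then K else (1 : ℝ))) * (N z : ℝ) ^ ε := by
        rw [hNz, ← Real.finsetProd_rpow _ _ (fun i _ => by positivity)]
    _ ≤ K ^ S.card * (N z : ℝ) ^ ε := mul_le_mul_of_nonneg_right hsmall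
        (Real.rpow_nonneg (Nat.cast_nonneg _) _)

end Pool.Agent.TM32
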